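import Pool.Agent.K4H28.MT.Fin

/-!
# The Mumford-Tate conjecture for projective hyperkähler varieties of any deformation type

Let `X_j`, `j ∈ T`, be finitely many projective hyperkähler varieties over a number field `K`, of any
deformation type, and let `N` be a further `ℓ`-adic representation of the Galois group together with a
Hodge structure (for instance the realizations of an abelian variety or of any other motive). We
compare `N ⊕ ⨁ H^i(X_j)`, with all degrees `i`, and `N ⊕ ⨁ H²(X_j)`.

Proof.

(1) By the engine of `Pool.Agent.N184.HK` (starting files) the Galois group acts on the algebra `A_i`
of the endomorphisms of `H^i` which commute with `so(H²)` by elements whose eigenvalues are roots of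
unity of bounded order. As the trace takes finitely many values on the Galois group, an open subgroup
acts unipotently on `A_i`.

(2) By the property (PU) of the `ℓ`-adic cohomology, inertia acts trivially on `A_i`, for an open
subgroup. By a theorem of Kolchin a non-trivial unipotent action would give an unramified additive
character of an open subgroup. There is none: such a character gives unramified cyclic extensions of
prime power degree greater than the class number of a totally complex field. (The Herbrand quotient of
the units for cyclic groups of prime power order is due to helper33, the bound of the degree by the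
class number to helper17 and helper55.) So an open subgroup commutes with `A_i`.

(3) Let `Y` be in the Lie algebra of the `ℓ`-adic image on `H^i`, the limit of `(σ - 1) / t`, and `Z` the
corresponding element for `H²`, `Z = S + c` with `S` in `so(H²)`. Then `T = Y - ρ_i (S) - (i / 2) c`
commutes with `so(H²)`, as the Galois group normalizes `so(H²)`, and with `A_i`, by (2). The determinants
of the Galois group on the images of the spectral projections of `T` are, up to roots of unity, powers
of the multiplier of the form on `H²`: this is true for Frobenius elements, by the engine. So the
eigenvalues of `T` are zero; and by Weyl's theorem the centre of `A_i` contains no nilpotent elements.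
Hence `T = 0`.

(4) The Mumford-Tate Lie algebra is generated by the conjugates of the Hodge operators, which are
given by `ρ_i`, too (Verbitsky).
-/

set_option autoImplicit false

open NumberField Pool.Agent.W401.Cheb Pool.Agent.N184.HK Pool.Agent.K4H28.MT

/-- **The Mumford-Tate conjecture for projective hyperkähler varieties.** Let `X j`, `j ∈ T`, be
finitely many projective hyperkähler varieties over the number field `K` (`HKVariety`, `Betti`), of any
deformation type, `gN` a continuous representation of the Galois group on a finite direct sum of
`ℚ_ℓ`-vector spaces, and `hN` the operator of a Hodge structure on the corresponding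
rational vector spaces. Then:

(1) for all `j` and `i` an open subgroup of the Galois group acts on `H^i(X_j)` by operators which
commute with all operators commuting with `so(H²(X_j))`;

(2) the Lie algebra of the `ℓ`-adic image on the sum of `N` and of all `H^i(X_j)` is the image of the
Lie algebra of the `ℓ`-adic image on the sum of `N` and of all `H²(X_j)` by the map which is the
identity on `N` and `Z ↦ ρ_i (Z - c) + (i / 2) c`, `c = tr Z / b₂`, on `H²(X_j)`;

(3) the same is true for the Lie algebras of the Mumford-Tate groups;

(4) the Mumford-Tate conjecture at `ℓ` is true for the sum of `N` and of all `H^i(X_j)` if and only if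
it is true for the sum of `N` and of all `H²(X_j)`. -/
theorem Pool.Agent.Results.MP_de8692_ag.HyperkaehlerVarieties.result
    {ℓ : ℕ} [Fact ℓ.Prime] {K : Type} [Field K] [NumberField K] {Ω : Type} [Field Ω]
    [CharZero Ω] [IsAlgClosed Ω] [TopologicalSpace Ω] [IsTopologicalRing Ω] [T2Space Ω]
    [Algebra ℚ_[ℓ] Ω] [ContinuousSMul ℚ_[ℓ] Ω] {κ T : Type} [Finite κ] [Finite T] {m : κ → ℕ}
    {X : T → HKVariety K Ω} (B : ∀ j, Betti ℓ (X j)) {gN : GK K → Blk m ℚ_[ℓ]}
    (hgN : IsCts gN) (hN : Blk m ℂ) :
    (∀ j, ∀ i ≤ (X j).d, OpenCommutes (X j) i) ∧
    LieImage (repAll B gN) (rep₂ B gN) (lamAll B ℚ_[ℓ]) ∧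
    LieHodge (hodgeAll B hN) (hodge₂ B hN) (lamAll B ℚ) ∧
    (MTConj (repAll B gN) (hodgeAll B hN) ↔ MTConj (rep₂ B gN) (hodge₂ B hN)) :=
  ⟨fun j _ hi => commute_all B j hi, tangent_iff B hgN, lie_iff B hN, mt_all B hgN hN⟩
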