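import Pool.Agent.H60LR.Pair2

/-!
# The motivic Mumford-Tate conjecture from the rank of one Frobenius element

Let `M` be a motive (of André, or for absolute Hodge cycles) of weight `w` over a finitely generated
field `k` of characteristic zero, `N` a second motive, and let `G` be the group of the points of the
motivic Galois group of `M ⊕ N` (and of the Tate motives) with values in an algebraic closure `K` of
`ℚ_ℓ`; the Galois group `Γ` of `k` maps to `G` by `ι`, and `q` is the character of the Lefschetz
motive. Let `T` be a finite-dimensional representation of `G` over `K` and suppose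

* (`StronglyIrreducible`) `T` is irreducible under all subgroups of finite index of the Galois group;
* (`HasRank`) ONE element `s` of the Galois group (a Frobenius element, for example) has on `T` `r`
  eigenvalues which are multiplicatively independent modulo a group `H s` of numbers, which contains
  `q s` and the eigenvalues of `s` on the given representations `E i` (the tannakian category of `N`);

and for the realization `V` of `M`, with coefficients in `K`, one of the following:

* (A, orthogonal or symplectic type, `SelfDual`) `V` is a direct summand of a sum of copies of `T`, and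
  there is on `T` a nondegenerate symmetric (if `w` is even) or alternating (if `w` is odd) form with
  values in `K(-w)` (for example `V = T`, with the polarization), and `r > (3 / 8) dim T`;
* (B, unitary type) `V` is a direct summand of a sum of copies of `T ⊕ T^∨(-w)` (`SummandOfPairs`; for
  example for a motive `M` with multiplication by an imaginary quadratic field), and
  `r > (3 / 4) dim T`, and for one element `s'` no positive power of the determinant on `T` is in `H s'`
  (`IndependentDeterminant`).

**Theorem.**

* All Tate classes in all the representations `Hom (M ^ n, E i)` and their Tate twists are motivated if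
  and only if this is true for the `E i`: the motivic Mumford-Tate conjecture holds for `M ⊕ N`
  if and only if it holds for `N`.
* In particular the motivic Mumford-Tate conjecture (the equality of the neutral components of the
  `ℓ`-adic monodromy group and of the motivic Galois group) holds for `M`, if the character `q` has
  infinite order on `Γ`.
* If moreover the Galois group maps onto all finite quotients of the motivic Galois group (which is
  always true, since a motive with a finite motivic Galois group is an Artin motive) then this is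
  true without an extension of the field: the two groups are equal.

There is NO hypothesis on the Hodge numbers (or on the weights of a representation), on the
monodromy group, on inertia groups, on endomorphisms of the eigenspaces, and none on the motive `N`,
except for the independence of the eigenvalues. The number `3 / 8` cannot be made smaller by this
method: for the representation of `SL₂ × SL₂ × SL₂` on the tensor product of the
standard representations (dimension `8`, rank `3`), Mumford's example, no weight is isolated.

Proof. In case (B) one considers `T ⊕ T^∨(-w)` with its canonical form. Let `m` be the multiplier of `s`. The generalized eigenvalues of `s` come in pairs `β`,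
`m β⁻¹`. Consider their vectors `x` in the `ℚ`-vector space of the numbers modulo `H s` and modulo roots
of unity; so they come in pairs `± x`, and the dimension of their span is `≥ r`, but their
number is less than `(8 / 3) r`. Call `x ≠ 0` isolated if it occurs only once and if `x + x₁ = x₂ + x₃`
for vectors in the list is possible only if `x₂ = x` or `x₃ = x` or `x₁ = - x`. Choose a basis in
the list. The number of the pairs `± x` is less than `(4 / 3) r`, so that less than `r / 3` pairs are not
in the basis; every relation of length four in which an element of the basis occurs properly contains a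
vector outside of the basis, and a counting argument shows that an element of the basis is isolated.
This gives an isolated eigenvector in the sense of the library `Pool/Agent/Y130/MM` (starting files; see
`MP_d61fbb_ag.TwoFrobeniusMotives`), and its theorem on isolated eigenvalues can be applied.
-/

set_option autoImplicit false

namespace Pool.Agent.Results.MP_de8692_ag.LargeFrobeniusRank

section

variable {K T V E : Type} [Field K] [AddCommGroup T] [Module K T] [AddCommGroup V] [Module K V]
  [AddCommGroup E] [Module K E] {Γ G : Type} [Group Γ] [Group G]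

/-- The representation `ρ` is a direct summand of a sum of copies of the representation `τ`. -/
def SummandOfCopies (τ : Representation K G T) (ρ : Representation K G V) : Prop :=
  ∃ (r : ℕ) (i : Fin r → (T →ₗ[K] V)) (p : Fin r → (V →ₗ[K] T)),
    (∀ j g x, i j (τ g x) = ρ g (i j x)) ∧ (∀ j g x, p j (ρ g x) = τ g (p j x)) ∧
    ∀ x, ∑ j, i j (p j x) = x

/-- `T` is irreducible under all subgroups of finite index of the Galois group `Γ`. -/
def StronglyIrreducible (ι : Γ →* G) (τ : Representation K G T) : Prop :=
  ∀ Δ : Subgroup Γ, Δ.FiniteIndex → ∀ U : Submodule K T, (∀ s ∈ Δ, ∀ x ∈ U, τ (ι s) x ∈ U) →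
    U = ⊥ ∨ U = ⊤

/-- The linear map `f` has `r` eigenvalues which are multiplicatively independent modulo the group
`H` of numbers: no product of powers of them is in `H`, except for the empty one. -/
def HasRank (f : Module.End K T) (H : Subgroup Kˣ) (r : ℕ) : Prop :=
  ∃ z : Fin r → Kˣ, (∀ j, ∃ x : T, x ≠ 0 ∧ f x = (z j : K) • x) ∧
    ∀ e : Fin r → ℤ, ∏ j, z j ^ e j ∈ H → e = 0

/-- There is a nondegenerate form `B` on `T`, symmetric for even and alternating for odd `w`, with
`B (g x) (g y) = q(g) ^ w B x y`. -/
def SelfDual (q : G →* Kˣ) (w : ℕ) (τ : Representation K G T) : Prop :=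
  ∃ B : T →ₗ[K] T →ₗ[K] K, (∀ x y, B x y = (-1) ^ w * B y x) ∧ (∀ x, (∀ y, B x y = 0) → x = 0) ∧
    ∀ g x y, B (τ g x) (τ g y) = (q g : K) ^ w * B x y

/-- The action of `g` on `T ⊕ T^∨(-w)`, the sum of `T` and of the dual of `T`, twisted by `q ^ w`. -/
def actPair (q : G →* Kˣ) (w : ℕ) (τ : Representation K G T) (g : G) (x : T × Module.Dual K T) :
    T × Module.Dual K T :=
  (τ g x.1, (q g : K) ^ w • x.2.comp (τ g⁻¹))

/-- The representation `ρ` is a direct summand of a sum of copies of `T ⊕ T^∨(-w)`. -/
def SummandOfPairs (q : G →* Kˣ) (w : ℕ) (τ : Representation K G T) (ρ : Representation K G V) :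
    Prop :=
  ∃ (r : ℕ) (i : Fin r → (T × Module.Dual K T →ₗ[K] V)) (p : Fin r → (V →ₗ[K] T × Module.Dual K T)),
    (∀ j g x, i j (actPair q w τ g x) = ρ g (i j x)) ∧
    (∀ j g x, p j (ρ g x) = actPair q w τ g (p j x)) ∧ ∀ x, ∑ j, i j (p j x) = x

/-- For an element `s` of the Galois group no positive power of the determinant on `T` is in `H s`. -/
def IndependentDeterminant (ι : Γ →* G) (H : Γ → Subgroup Kˣ) (τ : Representation K G T) : Prop :=
  ∃ s : Γ, ∀ n : ℕ, 0 < n → ∀ u ∈ H s, (u : K) ≠ LinearMap.det (τ (ι s)) ^ n

/-- The eigenvalues of all elements `s` of the Galois group on `E` are in the groups `H s`. -/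
def EigenvaluesIn (ι : Γ →* G) (H : Γ → Subgroup Kˣ) (σ : Representation K G E) : Prop :=
  ∀ s β, (∃ x : E, x ≠ 0 ∧ σ (ι s) x = β • x) → ∃ u ∈ H s, (u : K) = β

/-- The element `g` acts on `φ` in `Hom (V ^ n, E)` (a multilinear map) through `q ^ j`. -/
def ActsBy (q : G →* Kˣ) (j : ℤ) {n : ℕ} (ρ : Representation K G V) (σ : Representation K G E)
    (φ : MultilinearMap K (fun _ : Fin n => V) E) (g : G) : Prop :=
  ∀ v, σ g (φ v) = ((q g ^ j : Kˣ) : K) • φ fun l => ρ g (v l)

/-- All Tate classes in the Tate twists of `E` are motivated: a vector on which a subgroup of finite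
index of the Galois group `Γ` acts through `q ^ j` is a vector on which a subgroup of finite index of
the motivic Galois group `G` acts through `q ^ j`. -/
def TateMotivated (ι : Γ →* G) (q : G →* Kˣ) (σ : Representation K G E) : Prop :=
  ∀ (j : ℤ) (x : E),
    (∃ Δ : Subgroup Γ, Δ.FiniteIndex ∧ ∀ s ∈ Δ, σ (ι s) x = ((q (ι s) ^ j : Kˣ) : K) • x) →
    ∃ Δ : Subgroup G, Δ.FiniteIndex ∧ ∀ g ∈ Δ, σ g x = ((q g ^ j : Kˣ) : K) • x

/-- All Tate classes in the Tate twists of `Hom (V ^ n, E)` are motivated. -/
def TateMotivatedHom (ι : Γ →* G) (q : G →* Kˣ) (n : ℕ) (ρ : Representation K G V)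
    (σ : Representation K G E) : Prop :=
  ∀ (j : ℤ) (φ : MultilinearMap K (fun _ : Fin n => V) E),
    (∃ Δ : Subgroup Γ, Δ.FiniteIndex ∧ ∀ s ∈ Δ, ActsBy q j ρ σ φ (ι s)) →
    ∃ Δ : Subgroup G, Δ.FiniteIndex ∧ ∀ g ∈ Δ, ActsBy q j ρ σ φ g

/-- All Tate classes in the Tate twists of `Hom (V ^ n, E)` are motivated, without an extension of the
base field: if the Galois group acts on `φ` through `q ^ j`, then the motivic Galois group does. -/
def SameTateClasses (ι : Γ →* G) (q : G →* Kˣ) (n : ℕ) (ρ : Representation K G V)
    (σ : Representation K G E) : Prop :=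
  ∀ (j : ℤ) (φ : MultilinearMap K (fun _ : Fin n => V) E),
    (∀ s, ActsBy q j ρ σ φ (ι s)) → ∀ g, ActsBy q j ρ σ φ g

/-- The character `q ^ j` has infinite order on the Galois group, for `j ≠ 0`. -/
def InfiniteOrder (ι : Γ →* G) (q : G →* Kˣ) : Prop :=
  ∀ j : ℤ, j ≠ 0 → ∀ Δ : Subgroup Γ, Δ.FiniteIndex → ∃ s ∈ Δ, q (ι s) ^ j ≠ 1

/-- The Galois group maps onto all finite quotients of the motivic Galois group. -/
def OntoQuotients (ι : Γ →* G) : Prop :=
  ∀ Δ : Subgroup G, Δ.FiniteIndex → ∀ g : G, ∃ s : Γ, ∃ d ∈ Δ, g = ι s * d

theorem actsBy_iff {q : G →* Kˣ} {j : ℤ} {n : ℕ} {ρ : Representation K G V}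
    {σ : Representation K G E} {φ : MultilinearMap K (fun _ : Fin n => V) E} {g : G} :
    ActsBy q j ρ σ φ g ↔ Y130.MM.homRep n ρ σ g φ = ((q g ^ j : Kˣ) : K) • φ := by
  have h1 : ∀ (g : G) (x : V), ρ g⁻¹ (ρ g x) = x := fun g x => by
    rw [← Module.End.mul_apply, ← map_mul, inv_mul_cancel, map_one, Module.End.one_apply]
  have h2 : ∀ (g : G) (x : V), ρ g (ρ g⁻¹ x) = x := fun g x => by
    rw [← Module.End.mul_apply, ← map_mul, mul_inv_cancel, map_one, Module.End.one_apply]
  constructor
  · intro h
    ext v
    have h3 := h fun l => ρ g⁻¹ (v l)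
    simp only [h2] at h3
    exact h3
  · intro h v
    have h3 := congrArg (fun F : MultilinearMap K (fun _ : Fin n => V) E => F fun l => ρ g (v l)) h
    have h4 : σ g (φ fun l => ρ g⁻¹ (ρ g (v l))) = ((q g ^ j : Kˣ) : K) • φ fun l => ρ g (v l) := h3
    simp only [h1] at h4
    exact h4

theorem motivated_iff {ι : Γ →* G} {q : G →* Kˣ} {n : ℕ} {ρ : Representation K G V}
    {σ : Representation K G E} :
    TateMotivatedHom ι q n ρ σ ↔ Y130.MM.TateMotivated ι q (Y130.MM.homRep n ρ σ) := by
  simp only [TateMotivatedHom, Y130.MM.TateMotivated, actsBy_iff]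

end

/-- **The motivic Mumford-Tate conjecture from the rank of one Frobenius element.** -/
theorem result {K : Type} [Field K] [CharZero K] [IsAlgClosed K]
    -- the Galois group, the motivic Galois group, and the character of the Lefschetz motive
    {Γ G : Type} [Group Γ] [Group G] (ι : Γ →* G) (q : G →* Kˣ)
    -- the motive `M` of weight `w` with the realization `V`, and the representation `T`
    (w : ℕ) {V : Type} [AddCommGroup V] [Module K V] (ρ : Representation K G V)
    {T : Type} [AddCommGroup T] [Module K T] [FiniteDimensional K T] (τ : Representation K G T)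
    (hirr : StronglyIrreducible ι τ)
    -- one Frobenius element
    (H : Γ → Subgroup Kˣ) (hH : ∀ s, q (ι s) ∈ H s) (s : Γ) (r : ℕ)
    (hs : HasRank (τ (ι s)) (H s) r)
    -- (A) orthogonal or symplectic type, or (B) unitary type
    (hM : (SummandOfCopies τ ρ ∧ SelfDual q w τ ∧ 3 * Module.finrank K T < 8 * r) ∨
      (SummandOfPairs q w τ ρ ∧ IndependentDeterminant ι H τ ∧
        3 * Module.finrank K T < 4 * r))
    -- the representations in the tannakian category of `N`
    {I : Type} (E : I → Type) [∀ i, AddCommGroup (E i)] [∀ i, Module K (E i)]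
    [∀ i, FiniteDimensional K (E i)] (σ : ∀ i, Representation K G (E i))
    (hN : ∀ i, EigenvaluesIn ι H (σ i)) :
    ((∀ n i, TateMotivatedHom ι q n ρ (σ i)) ↔ ∀ i, TateMotivated ι q (σ i)) ∧
    (InfiniteOrder ι q → ∀ n, TateMotivatedHom ι q n ρ (Representation.trivial K G K)) ∧
    (InfiniteOrder ι q → OntoQuotients ι →
      ∀ n, SameTateClasses ι q n ρ (Representation.trivial K G K)) := by
  obtain ⟨z, hz, hz2⟩ := hs
  simp only [motivated_iff]
  rcases hM with ⟨hV, ⟨B, hsymm, hB, hq⟩, hr⟩ | ⟨hV, ⟨s', hdet⟩, hr⟩
  · have hM := H60LR.isolatedMotive hsymm hB hq hirr hH s hz hz2 hr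
    refine ⟨⟨fun h i => Y130.MM.of_homRep (h 0 i), fun h n i => Y130.MM.main_V hV hM (hN i) (h i) n⟩,
      fun hq2 n => H60LR.motivated_trivial hV hM hq2 n, fun hq2 hι n j x hx g => ?_⟩
    exact actsBy_iff.2 (H60LR.same_of_motivated hι (H60LR.motivated_trivial hV hM hq2 n) j x
      (fun s => actsBy_iff.1 (hx s)) g)
  · have hM := H60LR.isolatedMotive_pair (w := w) hirr hH s hz hz2 hr s' hdet
    have hV' : Y130.MT.SummandOfCopies (H60LR.withDual q w τ) ρ := hV
    refine ⟨⟨fun h i => Y130.MM.of_homRep (h 0 i), fun h n i => Y130.MM.main_V hV' hM (hN i) (h i) n⟩,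
      fun hq2 n => H60LR.motivated_trivial hV' hM hq2 n, fun hq2 hι n j x hx g => ?_⟩
    exact actsBy_iff.2 (H60LR.same_of_motivated hι (H60LR.motivated_trivial hV' hM hq2 n) j x
      (fun s => actsBy_iff.1 (hx s)) g)

end Pool.Agent.Results.MP_de8692_ag.LargeFrobeniusRank
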