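import Pool.Agent.H60ZO.Mot2

/-!
# The index of the `ℓ`-adic monodromy group in the motivic Galois group

Let `Y` be a smooth projective variety over a finitely generated field `k ⊂ ℂ`, `m n` the dimension of
the space of the motivated classes (André; those defined over `k`) on the product of `n + 1` copies of
`Y`, and `t ℓ n` the dimension of the space of the `ℓ`-adic Tate classes (invariant under an open
subgroup of the Galois group, up to the Tate twist) on it, of all degrees.

1. For every prime `ℓ` the quotient `t ℓ n / m n` converges to some `N ℓ ∈ {1, 2, ..., ∞}`.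
2. `N ℓ = 1` if and only if all Tate classes on all powers of `Y` are `ℚ_ℓ`-combinations of motivated
classes, that is, the identity component of the `ℓ`-adic monodromy group of `h(Y)` is its whole
motivic Galois group (with coefficients in `ℚ_ℓ`).
3. If `N ℓ < ∞` then all `ℓ`-adic Tate classes on all powers of `Y` are combinations of rational Hodge
classes which are `p`-adic Tate classes for all primes `p`; so the Mumford-Tate group is contained in
the `ℓ`-adic monodromy group.
4. If `N ℓ < ∞` then `N ℓ ≤ N p` for all primes `p`. If also `N p < ∞` then `N ℓ = N p`, and even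
`t ℓ n = t p n` for all `n`. In particular, if `N ℓ = 1` then for every prime `p` either `N p = 1` or
almost no `p`-adic Tate class on the powers of `Y` is a combination of motivated classes.

Proof. The motivated classes are nondegenerate by the Hodge-Riemann relations, so the ratio converges
by the index law, and if the limit is finite then the Tate classes are generated by finitely many over
the motivated ones. All wild embeddings of `ℚ_ℓ`, `ℚ_p` and `ℝ` into `ℂ` give actions of the Galois
group and of the group of nonzero complex numbers on the cohomology with complex coefficients which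
fix the motivated classes. As in `MP_6c781a_ag.HodgeAmongTate` the coefficient functions of the Tate
classes for these actions form a finitely generated module over the functions with finitely many
values, which is closed under multiplication; so the Tate classes have finite orbits, and by descent
they are combinations of rational classes which are Hodge classes and Tate classes for all `p`. For
(4) count the rational classes.

The setting is that of the starting files: `𝒱` is the class of the smooth projective varieties over
the field, `W` is the singular cohomology of their complex points with rational coefficients (`hK`) as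
a Weil cohomology theory, `Ψ` its Hodge structures, `G p` the action of the Galois group `Γ` on the
cohomology with `p`-adic coefficients, `pw Y n` the product of `n + 1` copies of `Y`.
-/

open CategoryTheory AlgebraicGeometry Filter Topology

universe u

namespace Pool.Agent.Results.MP_de8692_ag.MotivicIndex

open Pool.Agent.H914 Pool.Agent.H914.VarClass Pool.Agent.H914.VarClass.Obj
  Pool.Agent.H914.WeilCohomology Pool.Agent.Y133.Hdg Pool.Agent.R920.MT Pool.Agent.H60ZO.Gal
open Pool.Agent.Y133.Half (pw dimBy HasIndex)

variable {k : Type u} [Field k] {𝒱 : VarClass k} {ops : CycleOps 𝒱}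
  {W : WeilCohomology.{u, 0} ops} [Algebra W.K ℝ] [∀ (p : ℕ) [Fact p.Prime], Algebra W.K ℚ_[p]]
  {Γ : Type} [Group Γ]

/-- The rational class `c` is a Hodge class and a Tate class in the `p`-adic cohomology for all
primes `p`. -/
def RationalTate (Ψ : HodgeStr W) (G : ∀ (p : ℕ) [Fact p.Prime], GaloisAction W ℚ_[p] Γ)
    (Z : 𝒱.Obj) (j : ℕ) (c : W.H Z) : Prop :=
  IsHodge Ψ Z j c ∧ ∀ (p : ℕ) [Fact p.Prime], IsTate (G p) Z j c

/-- All Tate classes with coefficients in `E` on all powers of `X` are linear combinations of rational
classes with the property `Q`. -/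
def TateFrom {E : Type} [Field E] [Algebra W.K E] (G : GaloisAction W E Γ)
    (Q : ∀ Z : 𝒱.Obj, ℕ → W.H Z → Prop) (X : 𝒱.Obj) : Prop :=
  ∀ n j x, IsTateClass G (pw X n) j x → InSpan {c | Q (pw X n) j c} x

/-- **The index of the motivated classes in the Tate classes.** -/
theorem result (W : WeilCohomology.{u, 0} ops) (hK : ∀ a : W.K, ∃ q : ℚ, (q : W.K) = a)
    [Algebra W.K ℝ] (Ψ : HodgeStr W) [∀ (p : ℕ) [Fact p.Prime], Algebra W.K ℚ_[p]] (Γ : Type)
    [Group Γ] (G : ∀ (p : ℕ) [Fact p.Prime], GaloisAction W ℚ_[p] Γ) (Y : 𝒱.Obj)
    [Nontrivial (W.H Y)] (m : ℕ → ℕ) (t : ℕ → ℕ → ℕ)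
    (hm : ∀ n, m n = dimBy W (IsMotivated W) (pw Y n))
    (ht : ∀ (p : ℕ) [Fact p.Prime] (n : ℕ), t p n = dimE {x | ∃ j, IsTateClass (G p) (pw Y n) j x})
    (ℓ : ℕ) [Fact ℓ.Prime] :
    ∃ N : ℕ∞, 1 ≤ N ∧ HasIndex (t ℓ) m N ∧
      (N = 1 ↔ TateFrom (G ℓ) (IsMotivated W) Y) ∧
      (N ≠ ⊤ → TateFrom (G ℓ) (RationalTate Ψ G) Y) ∧
      (N ≠ ⊤ → ∀ (p : ℕ) [Fact p.Prime] (N' : ℕ∞), HasIndex (t p) m N' →
        N ≤ N' ∧ (N' ≠ ⊤ → N = N' ∧ t ℓ = t p)) := by
  obtain rfl := funext hm
  obtain ⟨N, h1, h2, h3, h4, h5⟩ := Pool.Agent.H60ZO.mot_final hK Ψ G ℓ Y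
  have e : ∀ (p : ℕ) [Fact p.Prime], t p =
      fun n => dimE {x | ∃ j, IsTateClass (G p) (pw Y n) j x} := fun p _ => funext (ht p)
  refine ⟨N, h1, ?_, h3, h4, fun hN p _ N' hN' => ?_⟩
  · rw [e ℓ]; exact h2
  · rw [e p] at hN' ⊢
    rw [e ℓ]
    obtain ⟨k1, k2⟩ := h5 hN p N' hN'
    exact ⟨k1, fun h => ⟨(k2 h).1, funext (k2 h).2⟩⟩

end Pool.Agent.Results.MP_de8692_ag.MotivicIndex
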