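import Pool.Agent.H60FP.AbsDefs
import Pool.Agent.H60FP.Abs

/-!
# One Tate class on the fourth power of a variety decides if all Tate classes are rational

Let `Y` be a smooth projective variety of dimension `d` over a finitely generated field `L ⊂ ℂ`. The
conjecture of Mumford and Tate says, for all powers of `Y`, that the Hodge classes are Tate classes and
that the `ℓ`-adic Tate classes are combinations of Hodge classes. The second half says that the
Mumford-Tate group is contained in the group `G_ℓ^0`. We prove that it can be checked on one Tate class
`κ_ℓ` in `H^{4d}(Y⁴, ℚ_ℓ(2d))`, the class of a projector to the Lie algebra of the group of the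
automorphisms of the cohomology which fix all Tate classes; such a class exists if the Galois
representation on `H^*(Y × Y)` is semisimple. More generally, let `S` be a set of primes. If there is no
factor of type IV (of the `ℓ`-adic representation) then the following are equivalent:

* all `ℓ`-adic Tate classes on all powers of `Y` are combinations, with coefficients in `ℚ_ℓ`, of
  rational classes which are Hodge classes, and `p`-adic Tate classes for all `p` in `S`;
* this is true for `κ_ℓ` and for the Tate classes in `H^{2d}(Y × Y, ℚ_ℓ(d))` (the endomorphisms of the
  Galois representation).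

In general a condition on the centre has to be added. For `S = ∅` the rational classes are the Hodge
classes; if `S` is the set of all primes then they are the classes which behave like algebraic classes
with respect to all `p`-adic cohomologies and the Hodge structure; motivated classes and absolute Hodge
classes have this property. So if `κ_ℓ` and the Tate endomorphisms are combinations of motivated
classes (for instance if the Tate conjecture is true for `Y⁴` in codimension `2 d`), and there is no
factor of type IV, then all `ℓ`-adic Tate classes on all powers of `Y` are combinations of rational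
classes which are Hodge classes and `p`-adic Tate classes for all `p`; so the Mumford-Tate group is
contained in `G_ℓ^0`, and for two such primes the dimensions of the spaces of Tate classes agree.

Idea of the proof. Let `𝔤` be the Lie algebra of the endomorphisms of `V ⊗ ℚ_ℓ`, `V = H^*(Y)`, which
kill all Tate classes, and let `𝔞` be the one of those which kill all rational classes. The rational
classes are exactly the rational tensors which are killed by `𝔞` (this uses the theorem of helper67
that the tensors killed by `𝔤` are Tate classes, for all `p`). If `κ_ℓ` is a combination of rational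
classes then it commutes with `𝔞`; for `y ∈ 𝔞` it follows that `y - κ_ℓ y` commutes with `𝔤`. So it is a
Tate endomorphism, and it is in the centre if the Tate endomorphisms are combinations of rational
classes. So `𝔞` is contained in `𝔤` up to the centre, and kills all Tate classes.
-/

set_option autoImplicit false

open Pool.Agent.H67FP Pool.Agent.H60FP

namespace Pool.Agent.Results.MP_de8692_ag.OneTateClassOnFourthPower

/-- **One Tate class on `Y⁴` decides if all Tate classes on all powers of `Y` are rational.** If the
Galois representation on the endomorphisms of the `ℓ`-adic cohomology is semisimple, then there is a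
projector `f` to the Lie algebra of the Galois side; its class `κ_ℓ` is a Tate class on `Y⁴`. For every
such `f` and every set `S` of primes, all `ℓ`-adic Tate classes on all powers of `Y` are combinations of
rational classes which are Hodge classes, and `p`-adic Tate classes for all `p` in `S`, if and only if
this is true for `κ_ℓ` and for the endomorphisms, and the condition on the centre holds; this condition
holds if there is no factor of type IV. -/
theorem result {Γ : Type} [Group Γ] {ι : Type} [Fintype ι] [DecidableEq ι] (Y : HodgeData ι)
    (R : ∀ (p : ℕ) [Fact p.Prime], GaloisRep p Γ Y) (ℓ : ℕ) [Fact ℓ.Prime] (S : Set ℕ) :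
    ((R ℓ).Semisimple → ∃ f, (R ℓ).IsProjector f) ∧
      (∀ f, (R ℓ).IsProjector f →
        (TateAreRational R S ℓ ↔ IsCombination R S ℓ (2 * Y.d) 4 (GaloisRep.classOf Y f) ∧
          TateEndAreRational R S ℓ ∧ CentreRational R S ℓ)) ∧
      (NoTypeFour R ℓ → CentreRational R S ℓ) := by
  -- the rational classes are the tensors killed by their annihilator
  have hcl : Closed Y.wt (IsRational R S) := by
    intro j k a ha hk
    refine ⟨⟨ha, ?_⟩, ?_⟩
    · refine der_zero_of_decomp (Q := IsRational R S) (fun j k b hb => ?_) hk
      exact hb.1.2
    · intro p _ hp
      refine (R p).all.isTate_of_killed (fun i hi => ha i fun h => hi ?_) fun x hx => ?_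
      · simp [extT, h]
      · exact der_zero_of_decomp (Q := IsRational R S) (fun j k b hb => hx j k _ (hb.2 p hp)) hk
  have hΔ : IsRational R S Y.d 2 (ofMat Y.Δ) :=
    ⟨(R ℓ).all.isHodge_Δ, fun p _ _ => (R p).all.isTate_Δ⟩
  have hWΔ : IsRational R S Y.d 2 (ofMat (wtM ℚ Y.wt * Y.Δ)) := by
    refine ⟨(R ℓ).all.isHodge_WΔ, fun p _ _ => ?_⟩
    have h := (R p).all.isTate_WΔ
    change (R p).all.IsTate Y.d 2 (extT ℚ_[p] (ofMat (wtM ℚ Y.wt * Y.Δ)))
    rw [extT_ofMat, ext_mul, ext_wtM]
    exact h
  refine ⟨?_, ?_, ?_⟩
  · intro hss
    obtain ⟨f, hf1, hf2, hf3, hf4⟩ := (R ℓ).all.exists_proj hss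
    refine ⟨f, hf1, fun x hx => hf2 x hx, ?_⟩
    refine (R ℓ).all.isTate_of_killed ((R ℓ).all.ofF_wt hf3) fun x hx => ?_
    exact (ofF_killed_iff ((R ℓ).all.Δ_inv ℚ_[ℓ]) f ((R ℓ).all.gal_Δ hx)).mpr (hf4 x hx)
  · rintro f ⟨hf1, hf2, hfT⟩
    constructor
    · intro h
      exact ⟨h _ _ _ hfT, fun a ha => h _ _ a ha, fun z _ _ hk j k a ha => hk j k a ha (h j k a ha)⟩
    · rintro ⟨hfQ, hE, hC⟩ j k a ha
      exact (R ℓ).all.all_in_span (Q := IsRational R S) hcl hΔ hWΔ hf1 (fun x hx => hf2 x hx) hfT
        hfQ hE hC ha
  · rintro ⟨b, hdet, hbH, hbT, hbc⟩
    exact (R ℓ).all.tateCentre_of_polarization (Q := IsRational R S) hdet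
      (fun w => ⟨hbH w, fun p _ _ => hbT w p⟩) (fun w => hbT w ℓ) hbc

end Pool.Agent.Results.MP_de8692_ag.OneTateClassOnFourthPower
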